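import Pool.Agent.W851.BE.Stm
import Pool.Agent.W597.BK.C

/-! # BE-CT: the fixed point inequality with all repelling points -/

set_option autoImplicit false

open Polynomial Topology Filter MeasureTheory
open scoped ENNReal

namespace Pool.Agent.W378.BE
open Pool.Agent.W95.BK Pool.Agent.W851.BE Pool.Agent.W597.BK

universe u

theorem main : S_COMB.{u} → S_CENTER.{u} → S_NWI.{u} → S_SUMDIR.{u} → S_S2.{u} → S_S1.{u} →
    S_GLAM.{u} → S_VAL.{u} → S_CR1.{u} → S_CT.{u} := by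
  intro hCOMB hCEN hNWI hSUM hS2 hS1 hGLAM hVAL hCR1
  intro K _ _ _ f I Cl J a r hI hCl hJ0 hJ1 hIJ hClJ hIa hCla hJa hr
  classical
  have hch : ∀ x ∈ I, ∃ (a : K) (r : ℝ), 0 < r ∧ (∃ c : K, ‖c‖ = r) ∧
      ∀ hr : 0 < r, x = gauss a r hr := by
    intro x hx
    obtain ⟨⟨a, r, hr, hc, hxx⟩, -, -⟩ := hI x hx
    exact ⟨a, r, hr, hc, fun _ => hxx⟩
  choose! A R hR hC hx using hch
  have hlam : ∀ x ∈ I, ∀ b : K, lam x b = max ‖A x - b‖ (R x) := by
    intro x hxI b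
    have h1 := (hGLAM K (A x) b).2 (R x) (hR x hxI)
    rwa [← hx x hxI] at h1
  have hinj : ∀ x ∈ I, ∀ y ∈ I, R x = R y → ‖A x - A y‖ ≤ R x → x = y := by
    intro x hxI y hyI h1 h2
    have h3 : lam x = lam y := by
      funext b
      rw [hlam x hxI, hlam y hyI, ← h1]
      refine le_antisymm (max_le_of h2) (max_le_of ?_)
      rwa [norm_sub_rev]
    refine BA.ext fun h => ?_
    rw [hVAL K x h, hVAL K y h, h3]
  -- the small radius
  have hη : ∃ η : ℝ, 0 < η ∧ (∀ x ∈ I, η ≤ R x) ∧ (∀ q ∈ J, η ≤ q.2) ∧ η ≤ r ∧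
      ∀ c ∈ Cl, ∀ c' ∈ Cl, c ≠ c' → η ≤ ‖c - c'‖ := by
    have key : ∀ s : ℝ, 0 < s → ∀ᶠ η in 𝓝[>] (0 : ℝ), η ≤ s := by
      intro s hs
      have h1 : Set.Iic s ∈ 𝓝 (0 : ℝ) := Iic_mem_nhds hs
      exact nhdsWithin_le_nhds h1
    have h1 : ∀ᶠ η in 𝓝[>] (0 : ℝ), 0 < η := self_mem_nhdsWithin
    have h2 : ∀ᶠ η in 𝓝[>] (0 : ℝ), ∀ x ∈ I, η ≤ R x :=
      (eventually_all_finset I).2 fun x hx => key _ (hR x hx)
    have h3 : ∀ᶠ η in 𝓝[>] (0 : ℝ), ∀ q ∈ J, η ≤ q.2 :=
      (eventually_all_finset J).2 fun x hx => key _ (hJ0 x hx)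
    have h4 : ∀ᶠ η in 𝓝[>] (0 : ℝ), ∀ c ∈ Cl, ∀ c' ∈ Cl, c ≠ c' → η ≤ ‖c - c'‖ := by
      refine (eventually_all_finset Cl).2 fun c _ => (eventually_all_finset Cl).2 fun c' _ => ?_
      by_cases hcc : c = c'
      · exact Eventually.of_forall fun η h => absurd hcc h
      · have := key ‖c - c'‖ (norm_pos_iff.2 (sub_ne_zero.2 hcc))
        exact this.mono fun η h _ => h
    obtain ⟨η, ha, hb, hc, hd, he⟩ := (h1.and (h2.and (h3.and ((key r hr).and h4)))).exists
    exact ⟨η, ha, hb, hc, hd, he⟩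
  obtain ⟨η, hη0, hηI, hηJ, hηr, hηC⟩ := hη
  set φ : BA K → K × ℝ := fun x => (A x, R x) with hφ
  set w : K × ℝ → ℕ := fun p => if h : 0 < p.2 then
    localDeg f ((gauss p.1 p.2 h : BA K) : P1B K) - (if PA f (gauss p.1 p.2 h) then 1 else 0)
    else 0 with hw
  have hwφ : ∀ x ∈ I, w (φ x) = localDeg f (x : P1B K) - (if PA f x then 1 else 0) := by
    intro x hxI
    have h1 : 0 < (φ x).2 := hR x hxI
    rw [hw]
    simp only [dif_pos h1]
    have h2 := hx x hxI (hR x hxI)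
    show localDeg f ((gauss (A x) (R x) (hR x hxI) : BA K) : P1B K) -
      (if PA f (gauss (A x) (R x) (hR x hxI)) then 1 else 0) = _
    rw [← h2]
  have hφinj : Set.InjOn φ I := by
    intro x hxI y hyI h
    have h1 : A x = A y := congrArg Prod.fst h
    have h2 : R x = R y := congrArg Prod.snd h
    refine hinj x hxI y hyI h2 ?_
    rw [h1, sub_self, norm_zero]
    exact (hR x hxI).le
  set ψ : K → K × ℝ := fun c => (c, η) with hψ
  have hψinj : Set.InjOn ψ Cl := by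
    intro c _ c' _ h
    exact congrArg Prod.fst h
  have hdisj : Disjoint J (Cl.image ψ) := by
    rw [Finset.disjoint_left]
    intro q hq hq'
    obtain ⟨c, hc, hcq⟩ := Finset.mem_image.1 hq'
    have h1 := hClJ c hc q hq
    have h2 : q.1 = c := by rw [← hcq]
    rw [h2, sub_self, norm_zero] at h1
    exact absurd (hJ0 q hq) (not_lt.2 h1)
  have hcomb := hCOMB K (Nw f) (fun a a' r h => hCEN K f a a' r h)
    (fun a r r' h h' => (hNWI K f a r h).2.2.2.1 r' h') ?_ (I.image φ) w ?_ ?_ ?_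
    (J ∪ Cl.image ψ) ?_ ?_ ?_ a r ?_ ?_
  · rw [Finset.sum_image hφinj, Finset.sum_congr rfl hwφ, Finset.sum_union hdisj,
      Finset.sum_image hψinj] at hcomb
    have h1 : Cl.card ≤ ∑ c ∈ Cl, Nw f (ψ c).1 (ψ c).2 := by
      rw [Finset.card_eq_sum_ones]
      exact Finset.sum_le_sum fun c hc => hCR1 K f c (hCl c hc) η hη0
    have h2 : ∑ x ∈ I, (localDeg f (x : P1B K) - (if PA f x then 1 else 0)) + Cl.card +
        ∑ p ∈ J, Nw f p.1 p.2 ≤ Nw f a r := by omega
    convert h2 using 5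
  · -- H3
    intro a r r' h0 h1 hc Z hZ1 hZ2
    obtain ⟨c, hc⟩ := hc
    have h2 := hSUM K f a c r h0 hc Z hZ1 hZ2
    have h3 := (hNWI K f a r h0).2.2.2.2.2 r' h1
    rcases Nat.lt_or_ge (Nw f a r') (Iw f a r) with h4 | h4
    · have h5 : Iw f a r = Nw f a r' + 1 := by omega
      have h6 := hS2 K f a c r r' h0 hc h1 h5 Z hZ1 hZ2
      omega
    · omega
  · -- H4
    intro p hp
    obtain ⟨x, hxI, rfl⟩ := Finset.mem_image.1 hp
    exact ⟨hR x hxI, hC x hxI⟩
  · -- H5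
    intro p hp r' hr' Z hZ1 hZ2
    obtain ⟨x, hxI, rfl⟩ := Finset.mem_image.1 hp
    rw [hwφ x hxI]
    obtain ⟨c, hc⟩ := hC x hxI
    obtain ⟨-, hfix, hdeg⟩ := hI x hxI
    have h1 := isLocalDeg_of f (x : P1B K) hdeg
    have hxx := hx x hxI (hR x hxI)
    have h2 := hS1 K f (A x) c (R x) (hR x hxI) hc (by rw [← hxx]; exact hfix)
      (localDeg f (x : P1B K)) (by rw [← hxx]; exact h1) Z hZ1 hZ2
    have h3 := (hNWI K f (A x) (R x) (hR x hxI)).2.2.2.2.2 r' hr'
    show ∑ z ∈ Z, Nw f z (R x) + (localDeg f (x : P1B K) - (if PA f x then 1 else 0)) ≤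
      Nw f (A x) r'
    by_cases hPA : PA f x
    · rw [if_pos hPA]
      omega
    · rw [if_neg hPA]
      rcases Nat.lt_or_ge (Nw f (A x) r') (Iw f (A x) (R x)) with h4 | h4
      · exfalso
        apply hPA
        have hz : zt (A x) (R x) = (x : P1B K) := by
          rw [zt_pos (A x) (hR x hxI), ← hxx]
        refine ⟨A x, R x, hR x hxI, hxx, hR x hxI, ⟨c, hc⟩, ?_, ?_, r', hr', ?_⟩
        · rw [hz]; exact hfix
        · rw [hz]; exact hdeg
        · have h5 : R x < r' := hr'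
          omega
      · omega
  · -- H6
    intro p hp q hq hpq hh
    obtain ⟨x, hxI, rfl⟩ := Finset.mem_image.1 hp
    obtain ⟨y, hyI, rfl⟩ := Finset.mem_image.1 hq
    exact hpq (congrArg φ (hinj x hxI y hyI hh.1 hh.2))
  · -- H7
    intro p hp
    rcases Finset.mem_union.1 hp with h | h
    · exact hJ0 p h
    · obtain ⟨c, hc, rfl⟩ := Finset.mem_image.1 h
      exact hη0
  · -- H8
    intro p hp q hq hpq
    rcases Finset.mem_union.1 hp with h | h <;> rcases Finset.mem_union.1 hq with h' | h'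
    · exact hJ1 p h q h' hpq
    · obtain ⟨c, hc, rfl⟩ := Finset.mem_image.1 h'
      have h1 := hClJ c hc p h
      have h2 := hηJ p h
      rw [norm_sub_rev]
      exact max_le h1 (h2.trans h1)
    · obtain ⟨c, hc, rfl⟩ := Finset.mem_image.1 h
      have h1 := hClJ c hc q h'
      have h2 := hηJ q h'
      exact max_le (h2.trans h1) h1
    · obtain ⟨c, hc, rfl⟩ := Finset.mem_image.1 h
      obtain ⟨c', hc', rfl⟩ := Finset.mem_image.1 h'
      have h1 := hηC c hc c' hc' (fun hcc => hpq (by rw [hcc]))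
      exact max_le h1 h1
  · -- H9
    intro p hp q hq
    obtain ⟨x, hxI, rfl⟩ := Finset.mem_image.1 hp
    rcases Finset.mem_union.1 hq with h | h
    · have h1 := hIJ x hxI q h
      rwa [hlam x hxI] at h1
    · obtain ⟨c, hc, rfl⟩ := Finset.mem_image.1 h
      exact (hηI x hxI).trans (le_max_right _ _)
  · -- H10
    intro p hp
    obtain ⟨x, hxI, rfl⟩ := Finset.mem_image.1 hp
    have h1 := hIa x hxI
    rw [hlam x hxI, max_lt_iff] at h1
    exact h1
  · intro p hp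
    rcases Finset.mem_union.1 hp with h | h
    · exact hJa p h
    · obtain ⟨c, hc, rfl⟩ := Finset.mem_image.1 h
      exact ⟨hCla c hc, hηr⟩

end Pool.Agent.W378.BE
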